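import Pool.Agent.Lib.MP_a054ff_gt.Main

/-! First-order criterion for positive type near the round unit sphere with `H = 2`. -/

namespace Pool.Agent.Results.MP_a054ff_gt.RoundFirstOrder

open Filter Topology MeasureTheory Pool.Agent.Lib.MP_a054ff_gt
open scoped ContDiff

theorem result (b H : ℝ → E3 → ℝ)
    (hb : ContDiff ℝ ∞ (Function.uncurry b)) (hH : ContDiff ℝ ∞ (Function.uncurry H))
    (b0 : ∀ x, ‖x‖ = 1 → b 0 x = 0) (H0 : ∀ x, ‖x‖ = 1 → H 0 x = 2)
    (hm : ‖∫ x : Metric.sphere (0 : E3) 1, deriv (fun e => H e x) 0 • (x : E3)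
        ∂(volume : Measure E3).toSphere‖ <
      -∫ x : Metric.sphere (0 : E3) 1, (deriv (fun e => H e x) 0 + 2 * deriv (fun e => b e x) 0)
        ∂(volume : Measure E3).toSphere) :
    ∀ᶠ e in 𝓝[>] (0 : ℝ), ShellFillIn (fun x => Real.exp (2 * b e x)) (H e) := by
  have Jb := J.of_sm (G := b) fun x => sm_of hb (0, x)
  have JH := J.of_sm (G := H) fun x => sm_of hH (0, x)
  have sb : ContDiff ℝ ∞ (b 0) := contDiff_of_sm Jb.sm0
  have sH : ContDiff ℝ ∞ (H 0) := contDiff_of_sm JH.sm0
  have db := fun x => (Jb.d x).deriv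
  have dH := fun x => (JH.d x).deriv
  have cH := (contDiff_of_sm JH.sm1).continuous
  simp only [db, dH] at hm
  have := main (b := fun e x => b e x - b 0 x) (H := fun e x => H e x - H 0 x + 2)
    (b1 := fun x => fderiv ℝ (fun z : ℝ × E3 => b z.1 z.2) (0, x) (1, 0))
    (H1 := fun x => fderiv ℝ (fun z : ℝ × E3 => H z.1 z.2) (0, x) (1, 0))
    (hb.sub (sb.comp contDiff_snd)) ((hH.sub (sH.comp contDiff_snd)).add contDiff_const)
    ((Jb.sub (J.const sb)).cast (fun _ => sub_self _) fun _ => sub_zero _)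
    (((JH.sub (J.const sH)).add (J.const contDiff_const)).cast (fun _ => by simp) fun _ => by simp)
    hm fun i => by
      have c : Continuous fun x : S2 =>
          fderiv ℝ (fun z : ℝ × E3 => H z.1 z.2) (0, (x : E3)) (1, 0) • (x : E3) :=
        (cH.comp continuous_subtype_val).smul continuous_subtype_val
      have := (EuclideanSpace.proj i : E3 →L[ℝ] ℝ).integral_comp_comm (μ := σ2)
        (c.integrable_of_hasCompactSupport (HasCompactSupport.of_compactSpace _))
      simpa [II, mul_comm] using this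
  filter_upwards [this] with e ⟨s, s0, s1, g, h1, h2, h3, h4, h5⟩
  refine ⟨s, s0, s1, g, h1, h2, h3, fun x hx => ?_, h5⟩
  have := h4 x hx
  simp only [b0 x hx, H0 x hx, sub_zero, sub_add_cancel] at this
  exact this

end Pool.Agent.Results.MP_a054ff_gt.RoundFirstOrder
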