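import Mathlib

/-! A scale-invariant static vacuum metric on a solid cone whose boundary is a minimal surface
isometric to the punctured Euclidean plane, with positive potential and unbounded second
fundamental form. -/

namespace Pool.Agent.Results.MP_a054ff_gt.StaticCone

open Filter Topology Real Set
open scoped ContDiff

/-- Points of a 3-dimensional coordinate chart. -/
abbrev Pt : Type := Fin 3 → ℝ

/-- The partial derivative `∂ᵢ h`. -/
noncomputable def pd (i : Fin 3) (h : Pt → ℝ) (x : Pt) : ℝ := fderiv ℝ h x (Pi.single i 1)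

/-- The Christoffel symbols `Γᵏᵢⱼ` of a metric with coefficient matrix `g`. -/
noncomputable def Chr (g : Pt → Matrix (Fin 3) (Fin 3) ℝ) (k i j : Fin 3) (x : Pt) : ℝ :=
  (1 / 2) * ∑ l, (g x)⁻¹ k l *
    (pd i (fun y => g y j l) x + pd j (fun y => g y i l) x - pd l (fun y => g y i j) x)

/-- The Ricci tensor `Rᵢⱼ = ∂ₖ Γᵏᵢⱼ - ∂ⱼ Γᵏᵢₖ + Γᵏₖₗ Γˡᵢⱼ - Γᵏⱼₗ Γˡᵢₖ`. -/
noncomputable def Ric (g : Pt → Matrix (Fin 3) (Fin 3) ℝ) (i j : Fin 3) (x : Pt) : ℝ :=
  ∑ k, (pd k (Chr g k i j) x - pd j (Chr g k i k) x +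
    ∑ l, (Chr g k k l x * Chr g l i j x - Chr g k j l x * Chr g l i k x))

/-- The Hessian `∇²ᵢⱼ f = ∂ᵢ ∂ⱼ f - Γᵏᵢⱼ ∂ₖ f`. -/
noncomputable def Hess (g : Pt → Matrix (Fin 3) (Fin 3) ℝ) (f : Pt → ℝ) (i j : Fin 3)
    (x : Pt) : ℝ :=
  pd i (pd j f) x - ∑ k, Chr g k i j x * pd k f x

/-- The Laplacian `gⁱʲ ∇²ᵢⱼ f`. -/
noncomputable def Lap (g : Pt → Matrix (Fin 3) (Fin 3) ℝ) (f : Pt → ℝ) (x : Pt) : ℝ :=
  ∑ i, ∑ j, (g x)⁻¹ i j * Hess g f i j x

/-- The gradient `∇ⁱ f = gⁱʲ ∂ⱼ f`. -/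
noncomputable def grad (g : Pt → Matrix (Fin 3) (Fin 3) ℝ) (f : Pt → ℝ) (i : Fin 3) (x : Pt) : ℝ :=
  ∑ j, (g x)⁻¹ i j * pd j f x

/-- The squared length `|∇f|²`. -/
noncomputable def gradSq (g : Pt → Matrix (Fin 3) (Fin 3) ℝ) (f : Pt → ℝ) (x : Pt) : ℝ :=
  ∑ i, grad g f i x * pd i f x

/-- The second fundamental form `∇²ϱ / |∇ϱ|` of a level set of `ϱ`, on coordinate vectors tangent
to it, for the normal `∇ϱ / |∇ϱ|`. -/
noncomputable def sff (g : Pt → Matrix (Fin 3) (Fin 3) ℝ) (ϱ : Pt → ℝ) (i j : Fin 3)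
    (x : Pt) : ℝ :=
  Hess g ϱ i j x / √(gradSq g ϱ x)

/-- The mean curvature `(Δϱ - ∇²ϱ(∇ϱ, ∇ϱ) / |∇ϱ|²) / |∇ϱ|` of a level set of `ϱ`. -/
noncomputable def meanCurv (g : Pt → Matrix (Fin 3) (Fin 3) ℝ) (ϱ : Pt → ℝ) (x : Pt) : ℝ :=
  (Lap g ϱ x - (∑ i, ∑ j, Hess g ϱ i j x * grad g ϱ i x * grad g ϱ j x) / gradSq g ϱ x) /
    √(gradSq g ϱ x)

/-- The metric `N(θ)² ds² + s² (M(θ)² dθ² + P(θ)² dφ²)` in polar coordinates
`(s, θ, φ) = (x 0, x 1, x 2)`. -/
noncomputable def cone (N M P : ℝ → ℝ) (x : Pt) : Matrix (Fin 3) (Fin 3) ℝ :=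
  Matrix.diagonal ![N (x 1) ^ 2, x 0 ^ 2 * M (x 1) ^ 2, x 0 ^ 2 * P (x 1) ^ 2]

/-- The metric `g = N² ds² + s² (M² dθ² + P² dφ²)` on the solid cone `s > 0`, `0 ≤ θ ≤ θ₀` is
smooth (parity conditions and `P'(0) = M(0)` along the axis `θ = 0`), static vacuum with the
positive potential `f = s ^ α u(θ)`, and its boundary `θ = θ₀` carries the Euclidean metric
`ds² + s² dφ²` and has mean curvature zero. -/
structure IsStaticCone (α θ₀ : ℝ) (N M P u : ℝ → ℝ) : Prop where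
  angle : 0 < θ₀ ∧ θ₀ < π / 2
  smooth_N : ContDiffOn ℝ ∞ N (Ioo (-(π / 2)) (π / 2))
  smooth_M : ContDiffOn ℝ ∞ M (Ioo (-(π / 2)) (π / 2))
  smooth_P : ContDiffOn ℝ ∞ P (Ioo (-(π / 2)) (π / 2))
  smooth_u : ContDiffOn ℝ ∞ u (Ioo (-(π / 2)) (π / 2))
  even_N : ∀ t, N (-t) = N t
  even_M : ∀ t, M (-t) = M t
  odd_P : ∀ t, P (-t) = -P t
  even_u : ∀ t, u (-t) = u t
  axis : deriv P 0 = M 0
  pos : ∀ t ∈ Ioo (-(π / 2)) (π / 2), 0 < N t ∧ 0 < M t ∧ 0 < u t ∧ (0 < t → 0 < P t)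
  static : ∀ x : Pt, 0 < x 0 → 0 < x 1 → x 1 < π / 2 →
    (∀ i j, Hess (cone N M P) (fun y => y 0 ^ α * u (y 1)) i j x =
      (x 0 ^ α * u (x 1)) * Ric (cone N M P) i j x) ∧
    Lap (cone N M P) (fun y => y 0 ^ α * u (y 1)) x = 0
  flat : N θ₀ = 1 ∧ P θ₀ = 1
  minimal : ∀ x : Pt, 0 < x 0 → x 1 = θ₀ → meanCurv (cone N M P) (fun y => y 1) x = 0

theorem pd_prod (i : Fin 3) (F G : ℝ → ℝ) (x : Pt) (F' G' : ℝ) (hF : HasDerivAt F F' (x 0))
    (hG : HasDerivAt G G' (x 1)) :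
    pd i (fun y => F (y 0) * G (y 1)) x =
      (if i = 0 then F' * G (x 1) else 0) + (if i = 1 then F (x 0) * G' else 0) := by
  have h1 : HasFDerivAt (fun y : Pt => F (y 0))
      (F' • (ContinuousLinearMap.proj 0 : Pt →L[ℝ] ℝ)) x := by
    have := hF.hasFDerivAt.comp x (hasFDerivAt_apply (𝕜 := ℝ) (0 : Fin 3) x)
    refine this.congr_fderiv ?_
    ext v
    simp [mul_comm]
  have h2 : HasFDerivAt (fun y : Pt => G (y 1))
      (G' • (ContinuousLinearMap.proj 1 : Pt →L[ℝ] ℝ)) x := by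
    have := hG.hasFDerivAt.comp x (hasFDerivAt_apply (𝕜 := ℝ) (1 : Fin 3) x)
    refine this.congr_fderiv ?_
    ext v
    simp [mul_comm]
  have h3 := (h1.mul h2).fderiv
  unfold pd
  have : (fun y : Pt => F (y 0) * G (y 1)) = (fun y : Pt => F (y 0)) * fun y : Pt => G (y 1) := rfl
  rw [this, h3]
  fin_cases i <;> simp [mul_comm]

theorem pd_congr (i : Fin 3) {h h' : Pt → ℝ} {x : Pt} (e : h =ᶠ[𝓝 x] h') :
    pd i h x = pd i h' x := by
  unfold pd
  rw [e.fderiv_eq]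

/-- the open region of the chart -/
def U (x : Pt) : Prop := 0 < x 0 ∧ 0 < x 1 ∧ x 1 < π / 2

theorem U_ev {x : Pt} (h : U x) : ∀ᶠ y in 𝓝 x, U y := by
  have c0 : ContinuousAt (fun y : Pt => y 0) x := (continuous_apply 0).continuousAt
  have c1 : ContinuousAt (fun y : Pt => y 1) x := (continuous_apply 1).continuousAt
  filter_upwards [c0.eventually (lt_mem_nhds h.1), c1.eventually (lt_mem_nhds h.2.1),
    c1.eventually (gt_mem_nhds h.2.2)] with y a b c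
  exact ⟨a, b, c⟩

theorem U_cos {x : Pt} (h : U x) : 0 < cos (x 1) :=
  cos_pos_of_mem_Ioo ⟨by linarith [h.2.1, pi_pos], h.2.2⟩

theorem U_sin {x : Pt} (h : U x) : 0 < sin (x 1) :=
  sin_pos_of_pos_of_lt_pi h.2.1 (by linarith [h.2.2, pi_pos])

theorem U_tan {x : Pt} (h : U x) : 0 < tan (x 1) := by
  rw [tan_eq_sin_div_cos]
  exact div_pos (U_sin h) (U_cos h)

theorem hd_cpow (w : ℝ) {t : ℝ} (h : 0 < cos t) :
    HasDerivAt (fun t => cos t ^ w) (-(w * tan t) * cos t ^ w) t := by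
  have := (hasDerivAt_cos t).rpow_const (p := w) (Or.inl h.ne')
  refine this.congr_deriv ?_
  rw [rpow_sub_one h.ne', tan_eq_sin_div_cos]
  field_simp

theorem hd_tan {t : ℝ} (h : 0 < cos t) : HasDerivAt tan (1 + tan t ^ 2) t := by
  refine (hasDerivAt_tan h.ne').congr_deriv ?_
  rw [tan_eq_sin_div_cos]
  field_simp
  linarith [sin_sq_add_cos_sq t]

theorem hd_sin {t : ℝ} (h : 0 < cos t) (h' : 0 < sin t) :
    HasDerivAt sin (sin t / tan t) t := by
  refine (hasDerivAt_sin t).congr_deriv ?_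
  rw [tan_eq_sin_div_cos]
  field_simp

section explicit

variable (k m p q : ℝ)

noncomputable def NN (t : ℝ) : ℝ := k / m * cos t ^ p
noncomputable def MM (t : ℝ) : ℝ := k * cos t ^ p
noncomputable def PP (t : ℝ) : ℝ := k * (cos t ^ q * sin t)

noncomputable def gm : Pt → Matrix (Fin 3) (Fin 3) ℝ := cone (NN k m p) (MM k p) (PP k q)

noncomputable def gF (i j : Fin 3) (s : ℝ) : ℝ := if i = j then ![1, s ^ 2, s ^ 2] i else 0
noncomputable def gF' (i j : Fin 3) (s : ℝ) : ℝ := if i = j then ![0, 2 * s, 2 * s] i else 0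
noncomputable def gG (i : Fin 3) (t : ℝ) : ℝ := ![NN k m p t ^ 2, MM k p t ^ 2, PP k q t ^ 2] i
noncomputable def gG' (i : Fin 3) (t : ℝ) : ℝ :=
  ![-(2 * p * tan t) * NN k m p t ^ 2, -(2 * p * tan t) * MM k p t ^ 2,
    2 * (1 / tan t - q * tan t) * PP k q t ^ 2] i

theorem gm_eq (i j : Fin 3) :
    (fun y : Pt => gm k m p q y i j) = fun y => gF i j (y 0) * gG k m p q i (y 1) := by
  funext y
  fin_cases i <;> fin_cases j <;> simp [gm, cone, gF, gG]

theorem gF_deriv (i j : Fin 3) (s : ℝ) : HasDerivAt (gF i j) (gF' i j s) s := by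
  have a : HasDerivAt (fun s : ℝ => s ^ 2) (2 * s) s := by simpa using hasDerivAt_pow 2 s
  unfold gF gF'
  by_cases h : i = j
  · simp only [h, if_true]
    fin_cases j
    · exact hasDerivAt_const _ _
    · exact a
    · exact a
  · simp only [h, if_false]
    exact hasDerivAt_const _ _

theorem hd_NN {t : ℝ} (h : 0 < cos t) :
    HasDerivAt (NN k m p) (-(p * tan t) * NN k m p t) t := by
  refine ((hd_cpow p h).const_mul (k / m)).congr_deriv ?_
  unfold NN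
  ring

theorem hd_MM {t : ℝ} (h : 0 < cos t) :
    HasDerivAt (MM k p) (-(p * tan t) * MM k p t) t := by
  refine ((hd_cpow p h).const_mul k).congr_deriv ?_
  unfold MM
  ring

theorem hd_PP {t : ℝ} (h : 0 < cos t) (h' : 0 < sin t) :
    HasDerivAt (PP k q) ((1 / tan t - q * tan t) * PP k q t) t := by
  refine (((hd_cpow q h).fun_mul (hd_sin h h')).const_mul k).congr_deriv ?_
  unfold PP
  ring

theorem gG_deriv (i : Fin 3) {t : ℝ} (h : 0 < cos t) (h' : 0 < sin t) :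
    HasDerivAt (gG k m p q i) (gG' k m p q i t) t := by
  unfold gG gG'
  fin_cases i
  · refine ((hd_NN k m p h).fun_pow 2).congr_deriv ?_
    simp
    ring
  · refine ((hd_MM k p h).fun_pow 2).congr_deriv ?_
    simp
    ring
  · refine ((hd_PP k q h h').fun_pow 2).congr_deriv ?_
    simp
    ring

theorem pd_gm {x : Pt} (hx : U x) (l i j : Fin 3) :
    pd l (fun y => gm k m p q y i j) x =
      (if l = 0 then gF' i j (x 0) * gG k m p q i (x 1) else 0) +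
        (if l = 1 then gF i j (x 0) * gG' k m p q i (x 1) else 0) := by
  rw [gm_eq, pd_prod l _ _ x _ _ (gF_deriv i j _) (gG_deriv k m p q i (U_cos hx) (U_sin hx))]

variable {k m}

theorem MM_pos (hk : 0 < k) {t : ℝ} (h : 0 < cos t) : 0 < MM k p t :=
  mul_pos hk (rpow_pos_of_pos h _)

theorem PP_pos (hk : 0 < k) {t : ℝ} (h : 0 < cos t) (h' : 0 < sin t) : 0 < PP k q t :=
  mul_pos hk (mul_pos (rpow_pos_of_pos h _) h')

theorem NN_eq (t : ℝ) : NN k m p t = MM k p t / m := by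
  unfold NN MM
  ring

theorem gm_inv (hk : 0 < k) (hm : 0 < m) {x : Pt} (hx : U x) :
    (gm k m p q x)⁻¹ = Matrix.diagonal
      ![(NN k m p (x 1) ^ 2)⁻¹, (x 0 ^ 2 * MM k p (x 1) ^ 2)⁻¹, (x 0 ^ 2 * PP k q (x 1) ^ 2)⁻¹] := by
  have h0 := hx.1.ne'
  have h1 := (MM_pos p hk (U_cos hx)).ne'
  have h2 := (PP_pos q hk (U_cos hx) (U_sin hx)).ne'
  have h3 := hm.ne'
  apply Matrix.inv_eq_right_inv
  unfold gm cone
  rw [Matrix.diagonal_mul_diagonal, ← Matrix.diagonal_one]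
  congr 1
  funext i
  fin_cases i <;> simp [NN_eq] <;> field_simp

/-- the quotient `P² / M²` -/
noncomputable def DD (k p q t : ℝ) : ℝ := PP k q t ^ 2 / MM k p t ^ 2

theorem hd_DD (hk : 0 < k) {t : ℝ} (h : 0 < cos t) (h' : 0 < sin t) :
    HasDerivAt (DD k p q) (2 * (1 / tan t - q * tan t + p * tan t) * DD k p q t) t := by
  have h1 := (MM_pos p hk h).ne'
  refine (((hd_PP k q h h').fun_pow 2).fun_div ((hd_MM k p h).fun_pow 2)
    (pow_ne_zero 2 h1)).congr_deriv ?_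
  unfold DD
  simp only [Nat.cast_ofNat, Nat.add_one_sub_one, pow_one]
  field_simp
  ring

noncomputable def cF (l i j : Fin 3) (s : ℝ) : ℝ :=
  ![![![0, 1, 0], ![1, s, 0], ![0, 0, s]],
    ![![1 / s ^ 2, 1 / s, 0], ![1 / s, 1, 0], ![0, 0, 1]],
    ![![0, 0, 1 / s], ![0, 0, 1], ![1 / s, 1, 0]]] l i j

noncomputable def cF' (l i j : Fin 3) (s : ℝ) : ℝ :=
  ![![![0, 0, 0], ![0, 1, 0], ![0, 0, 1]],
    ![![-2 / s ^ 3, -1 / s ^ 2, 0], ![-1 / s ^ 2, 0, 0], ![0, 0, 0]],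
    ![![0, 0, -1 / s ^ 2], ![0, 0, 0], ![-1 / s ^ 2, 0, 0]]] l i j

noncomputable def cG (k m p q : ℝ) (l i j : Fin 3) (t : ℝ) : ℝ :=
  ![![![0, -(p * tan t), 0], ![-(p * tan t), -m ^ 2, 0], ![0, 0, -m ^ 2 * DD k p q t]],
    ![![p / m ^ 2 * tan t, 1, 0], ![1, -(p * tan t), 0],
      ![0, 0, -((1 / tan t - q * tan t) * DD k p q t)]],
    ![![0, 0, 1], ![0, 0, 1 / tan t - q * tan t], ![1, 1 / tan t - q * tan t, 0]]] l i j

noncomputable def cG' (k m p q : ℝ) (l i j : Fin 3) (t : ℝ) : ℝ :=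
  ![![![0, -(p * (1 + tan t ^ 2)), 0], ![-(p * (1 + tan t ^ 2)), 0, 0],
      ![0, 0, -m ^ 2 * (2 * (1 / tan t - q * tan t + p * tan t) * DD k p q t)]],
    ![![p / m ^ 2 * (1 + tan t ^ 2), 0, 0], ![0, -(p * (1 + tan t ^ 2)), 0],
      ![0, 0, -((-(1 + tan t ^ 2) / tan t ^ 2 - q * (1 + tan t ^ 2)) * DD k p q t +
        (1 / tan t - q * tan t) * (2 * (1 / tan t - q * tan t + p * tan t) * DD k p q t))]],
    ![![0, 0, 0], ![0, 0, -(1 + tan t ^ 2) / tan t ^ 2 - q * (1 + tan t ^ 2)],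
      ![0, -(1 + tan t ^ 2) / tan t ^ 2 - q * (1 + tan t ^ 2), 0]]] l i j

theorem chr_eq (hk : 0 < k) (hm : 0 < m) {x : Pt} (hx : U x) (l i j : Fin 3) :
    Chr (gm k m p q) l i j x = cF l i j (x 0) * cG k m p q l i j (x 1) := by
  have h0 := hx.1.ne'
  have h1 := (MM_pos p hk (U_cos hx)).ne'
  have h2 := (PP_pos q hk (U_cos hx) (U_sin hx)).ne'
  have h3 := hm.ne'
  have h4 := (U_tan hx).ne'
  unfold Chr
  simp only [pd_gm k m p q hx, gm_inv p q hk hm hx, Fin.sum_univ_three]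
  fin_cases l <;> fin_cases i <;> fin_cases j <;>
    simp [cF, cG, gF, gF', gG, gG', Matrix.diagonal, NN_eq, DD] <;> field_simp

theorem cF_deriv {s : ℝ} (hs : 0 < s) (l i j : Fin 3) :
    HasDerivAt (cF l i j) (cF' l i j s) s := by
  have h0 := hs.ne'
  have a : HasDerivAt (fun s : ℝ => 1 / s) (-1 / s ^ 2) s := by
    refine ((hasDerivAt_const s (1 : ℝ)).fun_div (hasDerivAt_id' s) h0).congr_deriv ?_
    simp
  have b : HasDerivAt (fun s : ℝ => 1 / s ^ 2) (-2 / s ^ 3) s := by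
    refine ((hasDerivAt_const s (1 : ℝ)).fun_div (hasDerivAt_pow 2 s)
      (pow_ne_zero 2 h0)).congr_deriv ?_
    simp
    field_simp
  have c : HasDerivAt (fun s : ℝ => s) 1 s := hasDerivAt_id' s
  unfold cF cF'
  fin_cases l <;> fin_cases i <;> fin_cases j <;>
    first | exact a | exact b | exact c | exact hasDerivAt_const _ _

theorem cG_deriv (hk : 0 < k) {t : ℝ} (h : 0 < cos t) (h' : 0 < sin t) (l i j : Fin 3) :
    HasDerivAt (cG k m p q l i j) (cG' k m p q l i j t) t := by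
  have h4 : tan t ≠ 0 := by
    rw [tan_eq_sin_div_cos]
    exact (div_pos h' h).ne'
  have T := hd_tan h
  have D := hd_DD p q hk h h'
  have a : HasDerivAt (fun t => -(p * tan t)) (-(p * (1 + tan t ^ 2))) t := (T.const_mul p).fun_neg
  have b : HasDerivAt (fun t => p / m ^ 2 * tan t) (p / m ^ 2 * (1 + tan t ^ 2)) t := T.const_mul _
  have c : HasDerivAt (fun t => 1 / tan t - q * tan t)
      (-(1 + tan t ^ 2) / tan t ^ 2 - q * (1 + tan t ^ 2)) t := by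
    refine (((hasDerivAt_const t (1 : ℝ)).fun_div T h4).fun_sub (T.const_mul q)).congr_deriv ?_
    simp
  have d := D.const_mul (-m ^ 2)
  have e := (c.fun_mul D).fun_neg
  unfold cG cG'
  fin_cases l <;> fin_cases i <;> fin_cases j <;>
    first | exact a | exact b | exact c | exact d | exact e | exact hasDerivAt_const _ _

theorem pd_chr (hk : 0 < k) (hm : 0 < m) {x : Pt} (hx : U x) (n l i j : Fin 3) :
    pd n (Chr (gm k m p q) l i j) x =
      (if n = 0 then cF' l i j (x 0) * cG k m p q l i j (x 1) else 0) +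
        (if n = 1 then cF l i j (x 0) * cG' k m p q l i j (x 1) else 0) := by
  rw [← pd_prod n _ _ x _ _ (cF_deriv hx.1 l i j) (cG_deriv p q hk (U_cos hx) (U_sin hx) l i j)]
  apply pd_congr
  filter_upwards [U_ev hx] with y hy
  exact chr_eq p q hk hm hy l i j

end explicit

noncomputable def fF (α : ℝ) (j : Fin 3) (s : ℝ) : ℝ := ![α / s * s ^ α, s ^ α, 0] j
noncomputable def fF' (α : ℝ) (j : Fin 3) (s : ℝ) : ℝ :=
  ![α * (α - 1) / s ^ 2 * s ^ α, α / s * s ^ α, 0] j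
noncomputable def fG (w : ℝ) (j : Fin 3) (t : ℝ) : ℝ :=
  ![cos t ^ w, -(w * tan t) * cos t ^ w, 0] j
noncomputable def fG' (w : ℝ) (j : Fin 3) (t : ℝ) : ℝ :=
  ![-(w * tan t) * cos t ^ w, (w ^ 2 * tan t ^ 2 - w * (1 + tan t ^ 2)) * cos t ^ w, 0] j

theorem hd_spow (α : ℝ) {s : ℝ} (hs : 0 < s) :
    HasDerivAt (fun s : ℝ => s ^ α) (α / s * s ^ α) s := by
  refine (hasDerivAt_rpow_const (p := α) (Or.inl hs.ne')).congr_deriv ?_
  rw [rpow_sub_one hs.ne']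
  field_simp

theorem fF_deriv (α : ℝ) {s : ℝ} (hs : 0 < s) (j : Fin 3) :
    HasDerivAt (fF α j) (fF' α j s) s := by
  have h0 := hs.ne'
  have a := hd_spow α hs
  have b : HasDerivAt (fun s : ℝ => α / s * s ^ α) (α * (α - 1) / s ^ 2 * s ^ α) s := by
    refine (((hasDerivAt_const s α).fun_div (hasDerivAt_id' s) h0).fun_mul a).congr_deriv ?_
    field_simp
    ring
  unfold fF fF'
  fin_cases j
  · exact b
  · exact a
  · exact hasDerivAt_const _ _

theorem fG_deriv (w : ℝ) {t : ℝ} (h : 0 < cos t) (j : Fin 3) :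
    HasDerivAt (fG w j) (fG' w j t) t := by
  have a := hd_cpow w h
  have b : HasDerivAt (fun t => -(w * tan t) * cos t ^ w)
      ((w ^ 2 * tan t ^ 2 - w * (1 + tan t ^ 2)) * cos t ^ w) t := by
    refine ((((hd_tan h).const_mul w).fun_neg).fun_mul a).congr_deriv ?_
    ring
  unfold fG fG'
  fin_cases j
  · exact a
  · exact b
  · exact hasDerivAt_const _ _

theorem pd_f (α w : ℝ) {x : Pt} (hx : U x) (j : Fin 3) :
    pd j (fun y : Pt => y 0 ^ α * cos (y 1) ^ w) x = fF α j (x 0) * fG w j (x 1) := by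
  have := pd_prod j (fun s : ℝ => s ^ α) (fun t => cos t ^ w) x _ _ (hd_spow α hx.1)
    (hd_cpow w (U_cos hx))
  rw [this]
  fin_cases j <;> simp [fF, fG]

theorem pd_pd_f (α w : ℝ) {x : Pt} (hx : U x) (i j : Fin 3) :
    pd i (pd j (fun y : Pt => y 0 ^ α * cos (y 1) ^ w)) x =
      (if i = 0 then fF' α j (x 0) * fG w j (x 1) else 0) +
        (if i = 1 then fF α j (x 0) * fG' w j (x 1) else 0) := by
  rw [← pd_prod i _ _ x _ _ (fF_deriv α hx.1 j) (fG_deriv w (U_cos hx) j)]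
  apply pd_congr
  filter_upwards [U_ev hx] with y hy
  exact pd_f α w hy j

theorem static_hess {k b : ℝ} (hk : 0 < k) (hb : b < 1) {x : Pt} (hx : U x) (i j : Fin 3) :
    Hess (gm k (2 - 2 * b) (4 * b ^ 2 - 2 * b) (1 - 2 * b))
        (fun y : Pt => y 0 ^ (b / (1 - b)) * cos (y 1) ^ (2 * b)) i j x =
      (x 0 ^ (b / (1 - b)) * cos (x 1) ^ (2 * b)) *
        Ric (gm k (2 - 2 * b) (4 * b ^ 2 - 2 * b) (1 - 2 * b)) i j x := by
  have hm : 0 < 2 - 2 * b := by linarith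
  have h0 := hx.1.ne'
  have h3 : (1 - b) ≠ 0 := by linarith
  have h4 := (U_tan hx).ne'
  have e : 2 - 2 * b = 2 * (1 - b) := by ring
  unfold Hess Ric
  simp only [pd_pd_f _ _ hx, pd_f _ _ hx, pd_chr _ _ hk hm hx, chr_eq _ _ hk hm hx,
    Fin.sum_univ_three]
  rw [e]
  fin_cases i <;> fin_cases j <;>
    simp [cF, cF', cG, cG', fF, fF', fG, fG', -Real.tan_inv_eq_cot] <;> field_simp <;> ring

theorem static_lap {k b : ℝ} (hk : 0 < k) (hb : b < 1) {x : Pt} (hx : U x) :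
    Lap (gm k (2 - 2 * b) (4 * b ^ 2 - 2 * b) (1 - 2 * b))
        (fun y : Pt => y 0 ^ (b / (1 - b)) * cos (y 1) ^ (2 * b)) x = 0 := by
  have hm : 0 < 2 - 2 * b := by linarith
  have h0 := hx.1.ne'
  have h1 := (MM_pos (4 * b ^ 2 - 2 * b) hk (U_cos hx)).ne'
  have h2 := (PP_pos (1 - 2 * b) hk (U_cos hx) (U_sin hx)).ne'
  have h3 : (1 - b) ≠ 0 := by linarith
  have h4 := (U_tan hx).ne'
  have e : 2 - 2 * b = 2 * (1 - b) := by ring
  unfold Lap Hess
  simp only [pd_pd_f _ _ hx, pd_f _ _ hx, chr_eq _ _ hk hm hx, gm_inv _ _ hk hm hx,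
    Fin.sum_univ_three]
  rw [e]
  simp [cF, cG, fF, fF', fG, fG', Matrix.diagonal, NN_eq, DD, -Real.tan_inv_eq_cot]
  generalize MM k (4 * b ^ 2 - 2 * b) (x 1) = A at h1 ⊢
  generalize PP k (1 - 2 * b) (x 1) = B at h2 ⊢
  field_simp
  ring

theorem pd_ang (j : Fin 3) : pd j (fun y : Pt => y 1) = fun _ => if j = 1 then 1 else 0 := by
  funext x
  have := pd_prod j (fun _ => (1 : ℝ)) (fun t => t) x _ _ (hasDerivAt_const _ _)
    (hasDerivAt_id' _)
  simpa using this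

theorem hess_ang (g : Pt → Matrix (Fin 3) (Fin 3) ℝ) (i j : Fin 3) (x : Pt) :
    Hess g (fun y : Pt => y 1) i j x = -Chr g 1 i j x := by
  unfold Hess
  simp only [pd_ang, Fin.sum_univ_three]
  simp [pd]

theorem gradSq_ang {k m : ℝ} (p q : ℝ) (hk : 0 < k) (hm : 0 < m) {x : Pt} (hx : U x) :
    gradSq (gm k m p q) (fun y : Pt => y 1) x = (1 / (x 0 * MM k p (x 1))) ^ 2 := by
  unfold gradSq grad
  simp only [pd_ang, gm_inv p q hk hm hx, Fin.sum_univ_three]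
  simp [Matrix.diagonal, mul_pow]

theorem mean_ang {k m : ℝ} (p q : ℝ) (hk : 0 < k) (hm : 0 < m) {x : Pt} (hx : U x)
    (ht : (p + q) * tan (x 1) ^ 2 = 1) : meanCurv (gm k m p q) (fun y : Pt => y 1) x = 0 := by
  have h0 := hx.1.ne'
  have h1 := (MM_pos p hk (U_cos hx)).ne'
  have h2 := (PP_pos q hk (U_cos hx) (U_sin hx)).ne'
  have h3 := hm.ne'
  have h4 := (U_tan hx).ne'
  unfold meanCurv
  rw [gradSq_ang p q hk hm hx]
  unfold Lap grad
  simp only [hess_ang, pd_ang, chr_eq _ _ hk hm hx, gm_inv _ _ hk hm hx, Fin.sum_univ_three]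
  rw [div_eq_zero_iff]
  left
  simp [cF, cG, Matrix.diagonal, NN_eq, DD, -Real.tan_inv_eq_cot]
  field_simp
  linear_combination (-1 : ℝ) * ht

theorem sff_ang {k m : ℝ} (p q : ℝ) (hk : 0 < k) (hm : 0 < m) {x : Pt} (hx : U x) :
    sff (gm k m p q) (fun y : Pt => y 1) 0 0 x =
      -(p * tan (x 1) * MM k p (x 1) / m ^ 2) / x 0 := by
  have h0 := hx.1.ne'
  have h1 := MM_pos p hk (U_cos hx)
  have h1' := h1.ne'
  have h3 := hm.ne'
  unfold sff
  rw [gradSq_ang p q hk hm hx, sqrt_sq (by have := hx.1; positivity), hess_ang,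
    chr_eq _ _ hk hm hx]
  simp [cF, cG]
  field_simp

theorem exists_b : ∃ b : ℝ, 3 / 4 < b ∧ b < 4 / 5 ∧
    ((2 * b - 1) ^ 2 / (1 + (2 * b - 1) ^ 2)) ^ (2 * b ^ 2) =
      (2 - 2 * b) * ((2 * b - 1) / (1 + (2 * b - 1) ^ 2)) := by
  set E : ℝ → ℝ := fun b => ((2 * b - 1) ^ 2 / (1 + (2 * b - 1) ^ 2)) ^ (2 * b ^ 2) -
    (2 - 2 * b) * ((2 * b - 1) / (1 + (2 * b - 1) ^ 2)) with hE
  have hc : ContinuousOn E (Icc (3 / 4) (4 / 5)) := by
    have d : ∀ b : ℝ, 1 + (2 * b - 1) ^ 2 ≠ 0 := fun b => by positivity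
    have c1 : Continuous fun b : ℝ => (2 * b - 1) ^ 2 / (1 + (2 * b - 1) ^ 2) :=
      Continuous.div (by fun_prop) (by fun_prop) d
    have c2 : Continuous fun b : ℝ => (2 * b - 1) / (1 + (2 * b - 1) ^ 2) :=
      Continuous.div (by fun_prop) (by fun_prop) d
    refine ContinuousOn.sub (ContinuousOn.rpow c1.continuousOn (by fun_prop) ?_)
      ((Continuous.mul (by fun_prop) c2).continuousOn)
    intro b hb
    left
    have : 0 < 2 * b - 1 := by linarith [hb.1]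
    positivity
  have h1 : E (3 / 4) < 0 := by
    have : ((1 : ℝ) / 5) ^ ((9 : ℝ) / 8) < (1 / 5) ^ (1 : ℝ) :=
      rpow_lt_rpow_of_exponent_gt (by norm_num) (by norm_num) (by norm_num)
    rw [rpow_one] at this
    have e : E (3 / 4) = ((1 : ℝ) / 5) ^ ((9 : ℝ) / 8) - 1 / 5 := by
      simp only [hE]
      norm_num
    rw [e]
    linarith
  have h2 : 0 < E (4 / 5) := by
    have e : E (4 / 5) = ((9 : ℝ) / 34) ^ ((32 : ℝ) / 25) - 3 / 17 := by
      simp only [hE]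
      norm_num
    have : (3 / 17 : ℝ) < ((9 : ℝ) / 34) ^ ((32 : ℝ) / 25) := by
      refine lt_of_pow_lt_pow_left₀ 25 (by positivity) ?_
      rw [← rpow_natCast (((9 : ℝ) / 34) ^ ((32 : ℝ) / 25)) 25, ← rpow_mul (by norm_num)]
      have : (32 : ℝ) / 25 * (25 : ℕ) = (32 : ℕ) := by norm_num
      rw [this, rpow_natCast]
      norm_num
    rw [e]
    linarith
  obtain ⟨b, hb, hb0⟩ := intermediate_value_Ioo (by norm_num : (3 / 4 : ℝ) ≤ 4 / 5) hc
    (show (0 : ℝ) ∈ Ioo (E (3 / 4)) (E (4 / 5)) from ⟨h1, h2⟩)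
  exact ⟨b, hb.1, hb.2, sub_eq_zero.mp hb0⟩

theorem smooth_cpow (w : ℝ) : ContDiffOn ℝ ∞ (fun t => cos t ^ w) (Ioo (-(π / 2)) (π / 2)) :=
  fun _ ht => (contDiff_cos.contDiffAt.rpow_const_of_ne
    (cos_pos_of_mem_Ioo ht).ne').contDiffWithinAt

theorem result : ∃ (α θ₀ : ℝ) (N M P u : ℝ → ℝ), 3 < α ∧ α < 4 ∧ IsStaticCone α θ₀ N M P u ∧
    ∀ x : Pt, 0 < x 0 → x 1 = θ₀ → sff (cone N M P) (fun y => y 1) 0 0 x = -α / x 0 := by
  obtain ⟨b, b1, b2, hb⟩ := exists_b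
  have hb1 : b < 1 := by linarith
  have hc : 0 < 2 * b - 1 := by linarith
  have hm : 0 < 2 - 2 * b := by linarith
  have h1b : 0 < 1 - b := by linarith
  set θ := arctan (1 / (2 * b - 1)) with hθ
  have θ0 : 0 < θ := arctan_pos.mpr (by positivity)
  have θ1 : θ < π / 2 := arctan_lt_pi_div_two _
  have hcos : 0 < cos θ := cos_arctan_pos _
  have htan : tan θ = 1 / (2 * b - 1) := tan_arctan _
  have hsin : sin θ = cos θ / (2 * b - 1) := by
    rw [tan_eq_sin_div_cos] at htan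
    field_simp at htan ⊢
    linarith
  have hsq : cos θ ^ 2 = (2 * b - 1) ^ 2 / (1 + (2 * b - 1) ^ 2) := by
    have := sin_sq_add_cos_sq θ
    rw [hsin] at this
    field_simp at this ⊢
    linarith
  have hp : 0 < cos θ ^ (4 * b ^ 2 - 2 * b) := rpow_pos_of_pos hcos _
  set k := (2 - 2 * b) / cos θ ^ (4 * b ^ 2 - 2 * b) with hk
  have k0 : 0 < k := div_pos hm hp
  have hM : MM k (4 * b ^ 2 - 2 * b) θ = 2 - 2 * b := by
    unfold MM
    rw [hk]
    field_simp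
  have key : (2 - 2 * b) * (cos θ ^ (1 - 2 * b) * sin θ) = cos θ ^ (4 * b ^ 2 - 2 * b) := by
    have e1 : cos θ ^ (4 * b ^ 2) = (2 - 2 * b) * (sin θ * cos θ) := by
      have : cos θ ^ (4 * b ^ 2) = (cos θ ^ 2) ^ (2 * b ^ 2) := by
        rw [← rpow_natCast (cos θ) 2, ← rpow_mul hcos.le]
        congr 1
        push_cast
        ring
      rw [this, hsq, hb, hsin, div_mul_eq_mul_div, ← pow_two, hsq]
      field_simp
    have e2 : cos θ ^ (4 * b ^ 2 - 2 * b) * cos θ = cos θ ^ (1 - 2 * b) * cos θ ^ (4 * b ^ 2) := by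
      rw [← rpow_add_one hcos.ne', ← rpow_add hcos]
      congr 1
      ring
    apply mul_right_cancel₀ hcos.ne'
    rw [e2, e1]
    ring
  refine ⟨b / (1 - b), θ, NN k (2 - 2 * b) (4 * b ^ 2 - 2 * b), MM k (4 * b ^ 2 - 2 * b),
    PP k (1 - 2 * b), fun t => cos t ^ (2 * b), ?_, ?_, ?_, ?_⟩
  · rw [lt_div_iff₀ h1b]
    linarith
  · rw [div_lt_iff₀ h1b]
    linarith
  · refine ⟨⟨θ0, θ1⟩, contDiffOn_const.mul (smooth_cpow _), contDiffOn_const.mul (smooth_cpow _),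
      contDiffOn_const.mul ((smooth_cpow _).mul contDiff_sin.contDiffOn), smooth_cpow _,
      ?_, ?_, ?_, ?_, ?_, ?_, ?_, ⟨?_, ?_⟩, ?_⟩
    · intro t
      simp [NN]
    · intro t
      simp [MM]
    · intro t
      simp [PP]
    · intro t
      simp
    · have := (((hd_cpow (1 - 2 * b) (t := 0) (by simp)).fun_mul
        (hasDerivAt_sin 0)).const_mul k).deriv
      unfold PP MM
      rw [this]
      simp
    · intro t ht
      have c := cos_pos_of_mem_Ioo ht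
      refine ⟨?_, MM_pos _ k0 c, rpow_pos_of_pos c _, fun t0 => PP_pos _ k0 c ?_⟩
      · rw [NN_eq]
        exact div_pos (MM_pos _ k0 c) hm
      · exact sin_pos_of_pos_of_lt_pi t0 (by linarith [ht.2, pi_pos])
    · intro x x0 x1 x2
      exact ⟨fun i j => static_hess k0 hb1 ⟨x0, x1, x2⟩ i j, static_lap k0 hb1 ⟨x0, x1, x2⟩⟩
    · rw [NN_eq, hM]
      exact div_self hm.ne'
    · unfold PP
      rw [hk, div_mul_eq_mul_div, key]
      exact div_self hp.ne'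
    · intro x x0 x1
      refine mean_ang _ _ k0 hm ⟨x0, x1 ▸ θ0, x1 ▸ θ1⟩ ?_
      rw [x1, htan, show 4 * b ^ 2 - 2 * b + (1 - 2 * b) = (2 * b - 1) ^ 2 by ring]
      have := hc.ne'
      generalize 2 * b - 1 = c at this ⊢
      field_simp
  · intro x x0 x1
    have := sff_ang (4 * b ^ 2 - 2 * b) (1 - 2 * b) k0 hm (x := x) ⟨x0, x1 ▸ θ0, x1 ▸ θ1⟩
    unfold gm at this
    rw [this, x1, htan, hM]
    have e : 2 - 2 * b = 2 * (1 - b) := by ring
    rw [e, show 4 * b ^ 2 - 2 * b = 2 * b * (2 * b - 1) by ring]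
    have a1 := h1b.ne'
    have a2 := hc.ne'
    have a3 := x0.ne'
    generalize 2 * b - 1 = c at a2 ⊢
    generalize 1 - b = d at a1 ⊢
    field_simp

end Pool.Agent.Results.MP_a054ff_gt.StaticCone
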